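import Pool.Agent.KS6_80.AD.Main

set_option autoImplicit false

/-! # Denef's question for almost all products of powers of given forms

Let `F_0, ..., F_r` be forms with integral coefficients in `m + 1` variables. If one multivalued
master function `∏ F_i ^ a_i` (`a_i ∈ ℂ`, `∑ a_i deg F_i = 0`) has one nondegenerate critical point in the
projective space outside the hypersurfaces `F_i = 0`, then for almost all exponents `n` (density one),
and for EVERY prime `p`, the answer to Denef's question is positive for `f = ∏ F_i ^ n_i`, if the number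
of variables is three (the curves `F_i = 0` and their union may have any singularities), or if the
hypersurfaces `F_i = 0` are smooth and cross each other transversally in the complex projective
space, for any number of variables. The reductions of the `F_i` modulo `p` may be arbitrarily bad in
both cases.

* `fr_root`: near the points `P ≠ 0` of `ℚ_p ^ (m + 1)` the `F_i` with `F_i(P) = 0` are a part of a
  system of local `p`-adic analytic coordinates (`exists_minor`, `lp_snc`), or `f` is, up to units,
  a polynomial in two variables, for which the statement is known for every prime. The cone at the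
  origin gives the candidate `-(m + 1)/d`.
* The root `-(m + 1)/d` for almost all `n` comes from the starting library (`K3h38.AD`, semiclassical
  limit at a prime factor of `d`). -/

namespace Pool.Agent.Results.MP_5d9b3c_ag.AlmostAllMultiplicities

open MvPolynomial Pool.Agent.K3h38.AD Pool.Agent.KS6_80.AD
open Pool.Agent.KS6_80.SN (Snc)

/-- **Denef's question, for every prime, for almost all products of powers of given
forms.** Let `F_0, ..., F_r` be forms of the degrees `e_i > 0` in `m + 1` variables with integral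
coefficients, such that the master function `∏ F_i ^ a_i` has a nondegenerate critical point `q` for
some complex `a` (`IsCritical`). Assume that `m = 2`, or that the `F_i = 0` are smooth and cross each other
transversally in the complex projective space (`Snc`). There are a number `P0` and a nonzero
homogeneous integer polynomial `Δ` in `r` variables such that the answer to Denef's question is
positive (`DQ`) for `f = ∏ F_i ^ n_i` and every prime `p`, whenever the degree `d = ∑ n_i e_i > 0` of `f`
has a prime factor `ℓ ≥ P0` which does not divide `Δ(n_1, ..., n_r)`. The set of all `n` for which it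
holds has the natural density one. -/
theorem result {m r : ℕ} (F : Fin (r + 1) → MvPolynomial (Fin (m + 1)) ℤ) (e : Fin (r + 1) → ℕ)
    (hh : ∀ i, (F i).IsHomogeneous (e i)) (he : ∀ i, 0 < e i)
    (hloc : m = 2 ∨ 1 ≤ m ∧ Snc fun i => map (Int.castRingHom ℂ) (F i))
    (a : Fin (r + 1) → ℂ) (q : Fin m → ℂ)
    (hcrit : IsCritical (fun i => map (Int.castRingHom ℂ) (F i)) e a q) :
    (∃ (P0 N : ℕ) (Δ : MvPolynomial (Fin r) ℤ), Δ ≠ 0 ∧ Δ.IsHomogeneous N ∧
      ∀ (n : Fin (r + 1) → ℕ) (ℓ : ℕ), ℓ.Prime → P0 ≤ ℓ → 0 < ∑ i, n i * e i →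
        ℓ ∣ ∑ i, n i * e i → ¬ (ℓ : ℤ) ∣ eval (fun i => (n i.succ : ℤ)) Δ → DQ (∏ i, F i ^ n i)) ∧
    ∀ ε : ℝ, 0 < ε → ∃ N0 : ℕ, ∀ N : ℕ, N0 ≤ N → ∀ T : Finset (Fin (r + 1) → ℕ),
      (∀ n ∈ T, (∀ i, 1 ≤ n i ∧ n i ≤ N) ∧ ¬ DQ (∏ i, F i ^ n i)) →
      (T.card : ℝ) ≤ ε * (N : ℝ) ^ (r + 1) := by
  have hm : ∀ i, map (algebraMap ℚ ℂ) (map (Int.castRingHom ℚ) (F i)) =
      map (Int.castRingHom ℂ) (F i) := fun i => by
    rw [map_map]
    congr 1
  obtain ⟨⟨P0, N, Δ, h1, h2, h3⟩, h4⟩ := almost
    (fun {m} (g : MvPolynomial (Fin (m + 1)) ℚ) => ∀ f : MvPolynomial (Fin (m + 1)) ℤ,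
      map (Int.castRingHom ℚ) f = g → DQ f)
    (fun g h f hf => by
      subst hf
      exact dq_of f h)
    (fun i => map (Int.castRingHom ℚ) (F i)) e (fun i => (hh i).map _) he
    (by simpa only [hm] using hloc) a q (by simpa only [hm] using hcrit)
  have hprod : ∀ n : Fin (r + 1) → ℕ, map (Int.castRingHom ℚ) (∏ i, F i ^ n i) =
      ∏ i, map (Int.castRingHom ℚ) (F i) ^ n i := fun n => by
    rw [map_prod]
    exact Finset.prod_congr rfl fun i _ => map_pow _ _ _
  refine ⟨⟨P0, N, Δ, h1, h2, fun n ℓ a1 a2 a3 a4 a5 => h3 n ℓ a1 a2 a3 a4 a5 _ (hprod n)⟩,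
    fun ε hε => ?_⟩
  obtain ⟨N0, h5⟩ := h4 ε hε
  refine ⟨N0, fun N hN T hT => h5 N hN T fun n hn => ?_⟩
  obtain ⟨h6, h7⟩ := hT n hn
  exact ⟨h6, fun h8 => h7 (h8 _ (hprod n))⟩

end Pool.Agent.Results.MP_5d9b3c_ag.AlmostAllMultiplicities
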