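import Pool.Agent.KS6_80.TF.Fin
import Pool.Graph.R_pool_sql_team_seeded_620a6dc7.helper748_mc_.FanThm

set_option autoImplicit false

/-! # Denef's question, every prime, forms in three variables with arbitrary singularities

Let `f ∈ ℤ[x_0, x_1, x_2]` be a nonzero form of degree `d > 0`, with arbitrary singularities and
multiplicities. The form `f ^ (-3/d) Ω`, `Ω = x_0 dx_1 dx_2 - x_1 dx_0 dx_2 + x_2 dx_0 dx_1`, is a
multivalued differential form on the complement `U` of the curve `f = 0` in the projective plane,
with values in a local system `L` of rank one. If its class in `H²(U, L)` is not zero (`¬ Exact`: the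
function `f ^ (-3/d)` is not the divergence of a vector field `v f ^ (-3/d - K)`), then Q1 holds for
`f` and EVERY prime `p`: no prime is excluded, the reduction of the curve modulo `p` may be
arbitrarily bad.

The class is not zero, for instance, if

* `f` is strictly semistable,
* the curve has a point of multiplicity `d - 1` and some line which is a simple factor of the tangent
  cone at this point is not a component of the curve (`FanForm`; for `d = 3` the number `-3/d = -1` is
  always a root).

These forms need not be reduced, and their singularities need not be quasi-homogeneous. The log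
canonical threshold may be smaller than `3/d`.

* Zeta function. The integral over `ℤ_p ^ 3` is computed from the integrals of the dehomogenized
  polynomials `f(1, y, z)`, `f(x, 1, z)`, `f(x, y, 1)` over polydiscs, with the factor `1 - p^(-3) T^d`
  of the denominator (`form3_FR`). The poles of the integrals in two variables are roots, for every
  prime and every plane curve (starting library, `Y230`).
* The root `-3/d`: a functional equation with `b(-3/d) ≠ 0` would show that `f ^ (-3/d)` is a
  divergence (starting library, `exact_of_b`). That the two classes of examples are not exact is also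
  proved there (further such classes are in `Pool.Agent.Helper748`); this was used for topological
  and motivic zeta functions and for linear systems. -/

namespace Pool.Agent.Results.MP_5d9b3c_ag.NonExactForms

open MvPolynomial Pool.Agent.W427.SMC Pool.Agent.H628R4.TP
open Pool.Agent.Helper748.MC

/-- **Denef's question for forms `f` of degree `d > 0` in three variables and every prime `p`**, if the
class of the multivalued form `f ^ (-3/d) Ω` in the second cohomology group of the complement of the
projective curve `f = 0` is not zero (`¬ Exact d f (-3 / d)`), in particular if `f` is strictly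
semistable, or if `FanForm` holds.

Let `b` satisfy a functional equation `b(s) f ^ s = P(s) f ^ (s + 1)`, for instance `b = b_f`. Then the
Poincare series of `f` is the expansion at `0` of a rational function `Φ`, and for every pole `T₀` of `Φ`,
that is, for every root `T₀` of the reduced denominator of `Φ`, the number
`t₀ = -log |T₀| / log p` is a root of `b`. -/
theorem result (f : MvPolynomial (Fin 3) ℤ) (hf0 : f ≠ 0) (d : ℕ) (hd : 0 < d)
    (hf : f.IsHomogeneous d)
    (h : ¬ Exact d (map (Int.castRingHom ℂ) f) (-3 / d) ∨
      StrictlySemistable (map (Int.castRingHom ℂ) f) ∨ FanForm (map (Int.castRingHom ℂ) f))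
    (p : ℕ) [Fact p.Prime] (b : Polynomial ℂ) (hb : IsBFunction (map (Int.castRingHom ℂ) f) b) :
    ∃ Φ : RatFunc ℂ,
      ((Φ.denom : Polynomial ℂ) : PowerSeries ℂ) * poincare p f =
        ((Φ.num : Polynomial ℂ) : PowerSeries ℂ) ∧
      ∀ T₀ : ℂ, Φ.denom.eval T₀ = 0 → b.eval ((-Real.log ‖T₀‖ / Real.log p : ℝ) : ℂ) = 0 := by
  classical
  have hfc : (map (Int.castRingHom ℂ) f).IsHomogeneous d := hf.map _
  have hfc0 : map (Int.castRingHom ℂ) f ≠ 0 := fun h => hf0
    (map_injective _ Int.cast_injective (by rw [h, map_zero]))
  have hroot : ∀ b : Polynomial ℂ, IsBFunction (map (Int.castRingHom ℂ) f) b →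
      b.eval (-3 / (d : ℂ)) = 0 := by
    intro b hb
    rcases h with h | h | h
    · exact root_of_not_exact (fun _ : Unit => map (Int.castRingHom ℂ) f) d hd (fun _ => hfc) b
        (funEq_unit _ b hb) (fun _ => 1) (by rw [lcomb_unit]; exact hfc0)
        (by rw [lcomb_unit]; exact h)
    · obtain ⟨h1, h2⟩ := not_exact_of hd hfc (Or.inl h)
      exact root_of_not_exact (fun _ : Unit => map (Int.castRingHom ℂ) f) d hd (fun _ => hfc) b
        (funEq_unit _ b hb) (fun _ => 1) (by rw [lcomb_unit]; exact hfc0)
        (by rw [lcomb_unit]; exact h2)
    · exact fan_single _ d hd hfc h b hb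
  have hfq : map (Int.castRingHom ℚ) f ≠ 0 := fun h => hf0
    (map_injective _ Int.cast_injective (by rw [h, map_zero]))
  refine Pool.Agent.KS6_80.TF.poin_of f ?_ b hb
  have h1 := Pool.Agent.KS6_80.TF.form3_FR (p := p) (map (Int.castRingHom ℚ) f) hfq d hd (hf.map _)
    (fun b hb => ?_) (fun _ => 1) fun _ => one_ne_zero
  · rw [Pool.Agent.Y230.PS.scl_one] at h1
    exact h1
  · refine hroot b ?_
    rw [map_map] at hb
    exact hb

end Pool.Agent.Results.MP_5d9b3c_ag.NonExactForms
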