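import Pool.Agent.KS6_80.TF.Fin
import Pool.Graph.R_pool_sql_team_seeded_5cf16337.K3h38.LT.Prod

set_option autoImplicit false

/-! # Denef's question for the forms in three variables whose reduced curve has only quasi-homogeneous
singularities, every prime

Let `f = ∏ F_i ^ n_i ∈ ℤ[x_0, x_1, x_2]` be a form of degree `d > 0`, where the `F_i` are forms, `∏ F_i` is
squarefree over `ℂ`, and the multiplicities `n_i ≥ 1` are arbitrary; for instance the equation of any
projective plane curve with integral coefficients. Assume that the reduced curve `∏ F_i = 0` in the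
projective plane has only quasi-homogeneous singularities (`hsing`), in any number and of any kind,
and that no linear vector field of trace zero multiplies `f` with a nonzero constant (`hlin`; this holds
for example if the curve is not invariant under infinitely many projective transformations). Then Q1
holds for `f` and EVERY prime `p`: no prime is excluded, the reduction of the curve modulo `p` may be
arbitrarily bad.

* Zeta function. The integral over `ℤ_p ^ 3` is computed from the integrals of the dehomogenized
  polynomials `f(1, y, z)`, `f(x, 1, z)`, `f(x, y, 1)` over polydiscs, with the factor `1 - p^(-3) T^d`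
  of the denominator (`FR_cone`). The poles of the integrals in two variables are roots, for every
  prime and every plane curve (starting library, `Y230`).
* The root `-3/d`: starting library, `K3h38`. All relations between the partial derivatives of
  `f`, divided by their greatest common divisor, are consequences of the linear ones; hence the
  differential operators which annihilate all the `f ^ s` are generated by vector fields, and
  `b(E/d) - ∑ P_m f (E/d) ^ m`, `E` the Euler field, is such an operator. -/

namespace Pool.Agent.Results.MP_5d9b3c_ag.QuasiHomogeneousForms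

open MvPolynomial Pool.Agent.W427.SMC Pool.Agent.H628R4.TP

/-- **Denef's question for the forms `f = ∏ F_i ^ n_i` of degree `d > 0` in three variables whose reduced
curve `∏ F_i = 0` has only quasi-homogeneous singularities, and every prime `p`.** The `F_i` are forms
with integral coefficients, their product is squarefree over `ℂ`, the `n_i ≥ 1` are arbitrary.

* `hlin`: no linear vector field `A` of trace zero has the property `A f = μ f` with `μ ≠ 0`.
* `hsing`: for every singular point `q` of the reduced curve there is a polynomial vector field `A`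
  with `A f = 0` and `A(q) ≠ 0`.

Let `b` satisfy a functional equation `b(s) f ^ s = P(s) f ^ (s + 1)`, for instance `b = b_f`. Then the
Poincare series of `f` is the expansion at `0` of a rational function `Φ`, and for every pole `T₀` of `Φ`,
that is, for every root `T₀` of the reduced denominator of `Φ`, the number
`t₀ = -log |T₀| / log p` is a root of `b`. -/
theorem result {ι : Type} [Fintype ι] (F : ι → MvPolynomial (Fin 3) ℤ) (n e : ι → ℕ)
    (hsq : Squarefree (∏ i, map (Int.castRingHom ℂ) (F i))) (hn : ∀ i, 0 < n i)
    (hF : ∀ i, (F i).IsHomogeneous (e i)) (d : ℕ) (hd : 0 < d) (hde : ∑ i, n i * e i = d)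
    (f : MvPolynomial (Fin 3) ℤ) (hf : f = ∏ i, F i ^ n i)
    (hlin : ∀ (A : Matrix (Fin 3) (Fin 3) ℂ) (μ : ℂ), A.trace = 0 →
      ∑ j, (∑ k, C (A j k) * X k) * pderiv j (map (Int.castRingHom ℂ) f) =
        C μ * map (Int.castRingHom ℂ) f → μ = 0)
    (hsing : ∀ q : Fin 3 → ℂ, q ≠ 0 →
      (∀ j, eval q (pderiv j (∏ i, map (Int.castRingHom ℂ) (F i))) = 0) →
      ∃ A : Fin 3 → MvPolynomial (Fin 3) ℂ,
        ∑ j, A j * pderiv j (map (Int.castRingHom ℂ) f) = 0 ∧ ∃ j, eval q (A j) ≠ 0)
    (p : ℕ) [Fact p.Prime] (b : Polynomial ℂ) (hb : IsBFunction (map (Int.castRingHom ℂ) f) b) :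
    ∃ Φ : RatFunc ℂ,
      ((Φ.denom : Polynomial ℂ) : PowerSeries ℂ) * poincare p f =
        ((Φ.num : Polynomial ℂ) : PowerSeries ℂ) ∧
      ∀ T₀ : ℂ, Φ.denom.eval T₀ = 0 → b.eval ((-Real.log ‖T₀‖ / Real.log p : ℝ) : ℂ) = 0 := by
  classical
  have hmap : map (Int.castRingHom ℂ) f = ∏ i, map (Int.castRingHom ℂ) (F i) ^ n i := by
    rw [hf, map_prod]
    exact Finset.prod_congr rfl fun i _ => map_pow _ _ _
  have hFc : ∀ i, (map (Int.castRingHom ℂ) (F i)).IsHomogeneous (e i) := fun i => (hF i).map _
  have hroot : ∀ b : Polynomial ℂ, IsBFunction (map (Int.castRingHom ℂ) f) b →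
      b.eval (-3 / (d : ℂ)) = 0 := by
    intro b hb
    rw [hmap] at hb
    refine Pool.Agent.K3h38.LT.root_prod (fun i => map (Int.castRingHom ℂ) (F i)) hsq n e hn hFc d
      hd hde ?_ ?_ b hb
    · intro A μ hA h
      exact hlin A μ hA (by rw [hmap]; exact h)
    · intro q hq h
      obtain ⟨A, h1, h2⟩ := hsing q hq h
      exact ⟨A, by rw [← hmap]; exact h1, h2⟩
  have hfc : (map (Int.castRingHom ℂ) f) ≠ 0 := by
    rw [hmap]
    exact Finset.prod_ne_zero_iff.2 fun i _ =>
      pow_ne_zero _ ((Finset.prod_ne_zero_iff.1 hsq.ne_zero) i (Finset.mem_univ i))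
  have hfz : f ≠ 0 := fun h => hfc (by rw [h, map_zero])
  have hfh : f.IsHomogeneous d := by
    rw [hf, ← hde]
    refine IsHomogeneous.prod _ _ _ fun i _ => ?_
    rw [mul_comm]
    exact (hF i).pow (n i)
  have hfq : map (Int.castRingHom ℚ) f ≠ 0 := fun h => hfz
    (map_injective _ Int.cast_injective (by rw [h, map_zero]))
  refine Pool.Agent.KS6_80.TF.poin_of f ?_ b hb
  have h1 := Pool.Agent.KS6_80.TF.form3_FR (p := p) (map (Int.castRingHom ℚ) f) hfq d hd (hfh.map _)
    (fun b hb => ?_) (fun _ => 1) fun _ => one_ne_zero
  · rw [Pool.Agent.Y230.PS.scl_one] at h1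
    exact h1
  · refine hroot b ?_
    rw [map_map] at hb
    exact hb

end Pool.Agent.Results.MP_5d9b3c_ag.QuasiHomogeneousForms
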