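import Pool.Agent.KS6_80.HH.Tr
import Pool.Agent.KS6_80.TF.Fin

set_option autoImplicit false

/-! # Denef's question for every prime: hyperplanes and a transversal hypersurface

Let `G ∈ ℤ[X_1, …, X_N]` be a form of degree `e ≥ 2`, `N ≥ 2` arbitrary, and `f = ∏ X_i ^ (a i) G ^ b`
with `b ≥ 1` and arbitrary `a i ≥ 0`. Suppose that the hypersurface `G = 0` in the complex projective
space is smooth and transversal to all intersections of the hyperplanes `X_i = 0` with `a i ≠ 0`.
Then Q1 holds for `f` and EVERY prime `p`. No prime is excluded: modulo `p` the hypersurface may be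
singular, not transversal to the hyperplanes, it may contain some of them, or `G` may be divisible
by `p`. The numbers `a_(p, m)` count the solutions modulo `p ^ m` of an equation whose
singularities are not isolated (if some `a i ≠ 0`) and not reduced (if some `a i ≥ 2` or `b ≥ 2`).

* At the points `P ≠ 0` of `ℚ_p ^ N` the coordinates `X_i` with `a i ≠ 0`, `X_i(P) = 0`, and `G`, if
  `G(P) = 0`, are a part of a system of local `p`-adic analytic coordinates (`lp_nc`). The whole
  integral is computed from the local integrals by compactness, with the cone at the origin,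
  which gives the candidate `-N/d`, `d = ∑ a i + b e`.
* The root `-N/d` comes from the starting library (`K3h38.HH`), if all relations between the `N`
  polynomials `X_i ∂_i G` (`a i ≠ 0`), `∂_i G` (`a i = 0`) are combinations of the Koszul
  relations. This is proved here (`ke_of_zero`): these polynomials have no common zero except the
  origin, the depth of the polynomial ring at the origin is `N` (Rees), hence suitable linear
  combinations of them, with constant coefficients, are a regular sequence. -/

namespace Pool.Agent.Results.MP_5d9b3c_ag.TransversalHypersurface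

open MvPolynomial Pool.Agent.W427.SMC Pool.Agent.H628R4.TP

/-- **Denef's question for `f = ∏ X_i ^ (a i) G ^ b` and every prime `p`**, where `G` is a
form of degree `e ≥ 2` in `N ≥ 2` variables with integral coefficients, `b ≥ 1`, and the `a i ≥ 0` are
arbitrary.

* `htr`: at every complex point `z ≠ 0` with `G(z) = 0` there is an `i` with `a i = 0` or `z i ≠ 0`
  such that `∂_i G(z) ≠ 0`, i.e. the hypersurface `G = 0` in the projective space is smooth and
  transversal to all intersections of the hyperplanes `X_i = 0`, `a i ≠ 0`.

Let `B` satisfy a functional equation `B(s) f ^ s = P(s) f ^ (s + 1)`, for instance `B = b_f`. Then the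
Poincare series of `f` is the expansion at `0` of a rational function `Φ`, and for every pole `T₀` of `Φ`,
that is, for every root `T₀` of the reduced denominator of `Φ`, the number
`t₀ = -log |T₀| / log p` is a root of `B`. -/
theorem result {N e b : ℕ} (hN : 2 ≤ N) (he : 2 ≤ e) (hb : 1 ≤ b) (a : Fin N → ℕ)
    (G : MvPolynomial (Fin N) ℤ) (hG : G.IsHomogeneous e)
    (htr : ∀ z : Fin N → ℂ, z ≠ 0 → aeval z G = 0 →
      ∃ i, (a i = 0 ∨ z i ≠ 0) ∧ aeval z (pderiv i G) ≠ 0)
    (f : MvPolynomial (Fin N) ℤ) (hf : f = (∏ i, X i ^ a i) * G ^ b)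
    (p : ℕ) [Fact p.Prime] (B : Polynomial ℂ) (hB : IsBFunction (map (Int.castRingHom ℂ) f) B) :
    ∃ Φ : RatFunc ℂ,
      ((Φ.denom : Polynomial ℂ) : PowerSeries ℂ) * poincare p f =
        ((Φ.num : Polynomial ℂ) : PowerSeries ℂ) ∧
      ∀ T₀ : ℂ, Φ.denom.eval T₀ = 0 → B.eval ((-Real.log ‖T₀‖ / Real.log p : ℝ) : ℂ) = 0 := by
  have hfq : map (Int.castRingHom ℚ) f = (∏ i, X i ^ a i) * (map (Int.castRingHom ℚ) G) ^ b := by
    rw [hf, map_mul, map_prod, map_pow]
    simp
  have hev : ∀ (z : Fin N → ℂ) (q : MvPolynomial (Fin N) ℤ),
      aeval z (map (Int.castRingHom ℚ) q) = aeval z q := by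
    intro z q
    rw [aeval_def, eval₂_map, aeval_def]
    congr 1
  have h1 := Pool.Agent.KS6_80.HH.hh_FR (p := p) hN e b he hb a (map (Int.castRingHom ℚ) G)
    (hG.map _) (Pool.Agent.KS6_80.HH.tr_of e (by omega) a _ (hG.map _) fun z hz h0 => by
      rw [hev] at h0
      obtain ⟨i, hi, h1⟩ := htr z hz h0
      refine ⟨i, hi, ?_⟩
      rw [pderiv_map, hev]
      exact h1)
  rw [← hfq] at h1
  exact Pool.Agent.KS6_80.TF.poin_of f h1 B hB

end Pool.Agent.Results.MP_5d9b3c_ag.TransversalHypersurface
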